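import Pool.Agent.Lib.MP_446dfa_ag.gt.Rep

set_option linter.all false

/-!
# The leading terms of the representation of the pure braid group
-/

noncomputable section

namespace MP446G

open MP446 MP446Y MP446Z MP446S

universe u

section LeadV

variable {R : Type u} [CommRing R] {ε : R} {E : Type u} [Ring E] [Algebra R E]

lemma Lead.one : Lead ε (1 : E) 0 := ⟨0, by simp⟩

lemma Lead.inv {g : Eˣ} {A : E} (h : Lead ε (g : E) A) : Lead ε ((g⁻¹ : Eˣ) : E) (-A) := by
  obtain ⟨s, hs⟩ := h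
  set h' : E := ((g⁻¹ : Eˣ) : E) with hh
  have h1 : h' = 1 + ε • (-(A + ε • s) * h') := by
    have h2 : (g : E) * h' = 1 := Units.mul_inv g
    rw [hs, add_mul, one_mul] at h2
    rw [neg_mul, smul_neg, ← smul_mul_assoc, ← sub_eq_add_neg, eq_sub_iff_add_eq]
    exact h2
  refine ⟨-s + (A + ε • s) * ((A + ε • s) * h'), ?_⟩
  conv_lhs => rw [h1, h1]
  rw [mul_add, mul_one, mul_smul_comm, neg_mul, neg_mul, mul_neg, neg_neg, smul_add ε (-s)]
  congr 1
  congr 1
  rw [neg_add, smul_neg]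
  abel

lemma Lead.conj {g : Eˣ} {p : E} (h : Lead ε (g : E) p) (X : E) :
    ∃ c : E, (g : E) * X * ((g⁻¹ : Eˣ) : E) = X + ε • ((p * X - X * p) + ε • c) := by
  obtain ⟨s, hs⟩ := h
  obtain ⟨t, ht⟩ := Lead.inv ⟨s, hs⟩
  rw [hs, ht]
  refine ⟨s * X + X * t + (p + ε • s) * X * (-p + ε • t), ?_⟩
  have e1 : (1 + ε • (p + ε • s)) * X * (1 + ε • (-p + ε • t)) =
      X + ε • ((p + ε • s) * X) + ε • (X * (-p + ε • t)) +
        ε • ε • ((p + ε • s) * X * (-p + ε • t)) := by
    rw [add_mul, one_mul, mul_add, mul_one, add_mul, mul_smul_comm, smul_mul_assoc, mul_smul_comm,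
      smul_mul_assoc]
    abel
  rw [e1, add_mul p, mul_add X, smul_mul_assoc, mul_smul_comm, mul_neg]
  simp only [smul_add, smul_sub, smul_neg]
  abel

end LeadV

section LeadA

variable {R : Type u} [CommRing R] {ε : R}

lemma aut_lead (u : Fin 3 → (FA R (Fin 3))ˣ) (d : Fin 3 → FA R (Fin 3))
    (h : ∀ k, ∃ c, AA' u (letter R k) = letter R k + ε • (d k + ε • c)) (X : FA R (Fin 3)) :
    ∃ c, AA' u X = X + ε • (derF d X + ε • c) := by
  induction X using FA_induction with
  | h1 => exact ⟨0, by rw [map_one, derF_one]; simp⟩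
  | hmul a X ih =>
    obtain ⟨c, hc⟩ := ih
    obtain ⟨e, he⟩ := h a
    refine ⟨letter R a * c + e * X + (d a + ε • e) * (derF d X + ε • c), ?_⟩
    rw [map_mul, hc, he, derF_mul, derF_letter]
    have e1 : (letter R a + ε • (d a + ε • e)) * (X + ε • (derF d X + ε • c)) =
        letter R a * X + ε • (letter R a * (derF d X + ε • c)) + ε • ((d a + ε • e) * X) +
          ε • ε • ((d a + ε • e) * (derF d X + ε • c)) := by
      rw [add_mul, mul_add, mul_add, mul_smul_comm, smul_mul_assoc, smul_mul_smul_comm, ← smul_smul]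
      abel
    rw [e1, mul_add (letter R a), add_mul (d a), mul_smul_comm, smul_mul_assoc]
    simp only [smul_add]
    abel
  | hadd X Y hX hY =>
    obtain ⟨c, hc⟩ := hX
    obtain ⟨e, he⟩ := hY
    refine ⟨c + e, ?_⟩
    rw [map_add, map_add, hc, he]
    simp only [smul_add]
    abel
  | hsmul r X hX =>
    obtain ⟨c, hc⟩ := hX
    refine ⟨r • c, ?_⟩
    rw [map_smul, map_smul, hc]
    simp only [smul_add]
    rw [smul_comm r ε, smul_comm r ε, smul_comm r ε]

lemma lin_lead (T D : Module.End R (FA R (Fin 3)))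
    (h : ∀ X, ∃ c, T X = X + ε • (D X + ε • c)) : Lead ε T D := by
  choose c hc using h
  refine ⟨(MonoidAlgebra.basis (FreeMonoid (Fin 3)) R).constr R
    (fun w => c (MonoidAlgebra.single w 1)), ?_⟩
  apply (MonoidAlgebra.basis (FreeMonoid (Fin 3)) R).ext
  intro w
  rw [LinearMap.add_apply, LinearMap.smul_apply, LinearMap.add_apply, LinearMap.smul_apply,
    Module.Basis.constr_basis, MonoidAlgebra.basis_apply, hc, Module.End.one_apply]

variable (hε : IsNilpotent ε)

lemma lead_eu (k : Fin 3) : Lead ε ((eu hε k : (FA R (Fin 3))ˣ) : FA R (Fin 3)) (letter R k) :=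
  ⟨0, by rw [eu_val, smul_zero, add_zero]⟩

lemma lead_Lg (k : Fin 3) :
    Lead ε ((Lg (eu hε k) : (Module.End R (FA R (Fin 3)))ˣ) : Module.End R (FA R (Fin 3)))
      (Lx R (letter R k)) := by
  refine ⟨0, ?_⟩
  apply LinearMap.ext
  intro X
  rw [Lg_apply, eu_val, smul_zero, add_zero, add_mul, one_mul, smul_mul_assoc]
  rfl

lemma lead_au (u v : Fin 3 → (FA R (Fin 3))ˣ) (h1 : ∀ k, ph u (v k) * u k = 1)
    (h2 : ∀ k, ph v (u k) * v k = 1) (p : Fin 3 → FA R (Fin 3))
    (hp : ∀ k, Lead ε ((u k : (FA R (Fin 3))ˣ) : FA R (Fin 3)) (p k)) (d : Fin 3 → FA R (Fin 3))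
    (hd : ∀ k, d k = p k * letter R k - letter R k * p k) :
    Lead ε ((au u v h1 h2 : (Module.End R (FA R (Fin 3)))ˣ) : Module.End R (FA R (Fin 3)))
      (derF d) := by
  apply lin_lead
  apply aut_lead
  intro k
  rw [AA'_letter, hd]
  exact (hp k).conj _

lemma lead_pair (i j : Fin 3) : Lead ε (((eu hε i * eu hε j)⁻¹ : (FA R (Fin 3))ˣ) : FA R (Fin 3))
    (-(letter R i + letter R j)) := by
  apply Lead.inv
  rw [Units.val_mul]
  exact (lead_eu hε i).mul (lead_eu hε j)

theorem lead_xx (i j : Fin 4) (hij : i < j) :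
    Lead ε ((xx hε i j : (Module.End R (FA R (Fin 3)))ˣ) : Module.End R (FA R (Fin 3)))
      (ee R i j) := by
  have cases : (i = 0 ∧ j = 1) ∨ (i = 0 ∧ j = 2) ∨ (i = 1 ∧ j = 2) ∨ (i = 0 ∧ j = 3) ∨
      (i = 1 ∧ j = 3) ∨ (i = 2 ∧ j = 3) := by
    revert i j
    decide
  rcases cases with ⟨rfl, rfl⟩ | ⟨rfl, rfl⟩ | ⟨rfl, rfl⟩ | ⟨rfl, rfl⟩ | ⟨rfl, rfl⟩ | ⟨rfl, rfl⟩
  · rw [xx01]
    refine lead_au (ε := ε) _ _ _ _
      ![-(letter R 0 + letter R 1), -(letter R 0 + letter R 1), 0] ?_ (dij R 0 1) ?_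
    · intro k
      fin_cases k
      · exact lead_pair hε 0 1
      · exact lead_pair hε 0 1
      · exact Lead.one
    · intro k
      fin_cases k
      · simp [dij]; noncomm_ring
      · simp [dij]; noncomm_ring
      · simp [dij]
  · rw [xx02]
    refine lead_au (ε := ε) _ _ _ _
      ![-(letter R 0 + letter R 2), 0, -(letter R 0 + letter R 2)] ?_ (dij R 0 2) ?_
    · intro k
      fin_cases k
      · exact lead_pair hε 0 2
      · have h := (((lead_eu hε 2).inv.mul (lead_eu hε 0).inv).mul (lead_eu hε 2)).mul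
          (lead_eu hε 0)
        have e : -letter R (2 : Fin 3) + -letter R 0 + letter R 2 + letter R 0 = 0 := by abel
        rw [e] at h
        exact h
      · exact lead_pair hε 0 2
    · intro k
      fin_cases k
      · simp [dij]; noncomm_ring
      · simp [dij]
      · simp [dij]; noncomm_ring
  · rw [xx12]
    refine lead_au (ε := ε) _ _ _ _
      ![0, -(letter R 1 + letter R 2), -(letter R 1 + letter R 2)] ?_ (dij R 1 2) ?_
    · intro k
      fin_cases k
      · exact Lead.one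
      · exact lead_pair hε 1 2
      · exact lead_pair hε 1 2
    · intro k
      fin_cases k
      · simp [dij]
      · simp [dij]; noncomm_ring
      · simp [dij]; noncomm_ring
  · exact lead_Lg hε 0
  · exact lead_Lg hε 1
  · exact lead_Lg hε 2

end LeadA

end MP446G
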