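import Mathlib

/-!
# The group `GT₁(K)`

`K` is a field of characteristic zero.  We define the group `GT₁(K)` of the `K`-points of the
prounipotent part (`λ = 1`) of Drinfeld's Grothendieck-Teichmüller group, as a set of formal power
series `f` in two non-commuting variables `X`, `Y` with coefficients in `K`; such a series is given
by its coefficients `f w`, where `w` runs over the words in `X`, `Y`, i.e. over `List (Fin 2)`
(`X` is the letter `0`, `Y` the letter `1`).

A relation in the `K`-prounipotent completion of a group `Γ` is expressed by saying that it holds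
for all homomorphisms from `Γ` to groups `1 + I`, where `I` is a nilpotent subalgebra (without unit)
of a `K`-algebra `E`.
-/

noncomputable section

namespace MP446G

universe u

section Nilpotent

variable {K : Type u} [Field K] {E : Type u} [Ring E] [Algebra K E]

/-- `I` is a subalgebra (without unit) of `E`, and all products of `N` elements of `I` vanish. -/
structure IsNilp (N : ℕ) (I : Submodule K E) : Prop where
  mul_mem : ∀ x ∈ I, ∀ y ∈ I, x * y ∈ I
  prod_zero : ∀ l : List E, (∀ x ∈ l, x ∈ I) → l.length = N → l.prod = 0

/-- The value `f(a, b) = ∑_w f_w w(a, b)` of the series `f` at two elements `a`, `b` of a nilpotent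
subalgebra (the sum over all words is finite). -/
def val (f : List (Fin 2) → K) (a b : E) : E := ∑ᶠ w : List (Fin 2), f w • (w.map ![a, b]).prod

variable (K) in
/-- The logarithm `∑_{k ≥ 1} (-1)^(k-1) (g - 1)^k / k` of a unipotent element `g`. -/
def logU (g : E) : E := ∑ᶠ k : ℕ, ((-1 : K) ^ k / (k + 1)) • (g - 1) ^ (k + 1)

/-- The value at two unipotent elements `g`, `h` of the element `f` of the prounipotent completion
of the free group on `x = exp X`, `y = exp Y`, i.e. the value of the series `f` for `X = log g` and
`Y = log h`. -/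
def app (f : List (Fin 2) → K) (g h : E) : E := val f (logU K g) (logU K h)

end Nilpotent

/-- The relations of Artin's presentation of the pure braid group on four strands, for elements
`x i j` (`i < j`) of a group.  The strands `1, 2, 3, 4` are numbered `0, 1, 2, 3`. -/
structure PureBraid {G : Type u} [Group G] (x : Fin 4 → Fin 4 → G) : Prop where
  tri : ∀ i j k, i < j → j < k → Commute (x i j * x i k * x j k) (x i j) ∧
    Commute (x i j * x i k * x j k) (x i k) ∧ Commute (x i j * x i k * x j k) (x j k)
  far : Commute (x 0 1) (x 2 3) ∧ Commute (x 0 3) (x 1 2)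
  cross : Commute (x 0 2) ((x 0 1)⁻¹ * x 1 3 * x 0 1)

/-- `f` is an element of `GT₁(K)`: a group-like series without linear terms, satisfying Drinfeld's
relations with `λ = 1`. -/
structure IsGT1 {K : Type u} [Field K] (f : List (Fin 2) → K) : Prop where
  const : f [] = 1
  lin : ∀ i, f [i] = 0
  grouplike : ∀ (E : Type u) [Ring E] [Algebra K E] (N : ℕ) (I : Submodule K E), IsNilp N I →
    ∀ a ∈ I, ∀ b ∈ I, ∀ a' ∈ I, ∀ b' ∈ I, Commute a a' → Commute a b' → Commute b a' →
      Commute b b' → val f (a + a') (b + b') = val f a b * val f a' b'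
  dual : ∀ (E : Type u) [Ring E] [Algebra K E] (N : ℕ) (I : Submodule K E), IsNilp N I →
    ∀ x y : E, x - 1 ∈ I → y - 1 ∈ I → app f x y * app f y x = 1
  hexagon : ∀ (E : Type u) [Ring E] [Algebra K E] (N : ℕ) (I : Submodule K E), IsNilp N I →
    ∀ x y z : E, x - 1 ∈ I → y - 1 ∈ I → z - 1 ∈ I → x * y * z = 1 →
      app f z x * app f y z * app f x y = 1
  pentagon : ∀ (E : Type u) [Ring E] [Algebra K E] (N : ℕ) (I : Submodule K E), IsNilp N I →
    ∀ x : Fin 4 → Fin 4 → Eˣ, PureBraid x → (∀ i j, i < j → (x i j : E) - 1 ∈ I) →
      app f (x 0 1 : E) (x 1 2 * x 1 3) * app f (x 0 2 * x 1 2 : E) (x 2 3) =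
        app f (x 1 2 : E) (x 2 3) * app f (x 0 1 * x 0 2 : E) (x 1 3 * x 2 3) *
          app f (x 0 1 : E) (x 1 2)

end MP446G
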