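import Pool.Agent.Lib.MP_446dfa_ag.gt.Rep2
import Pool.Agent.Lib.MP_446dfa_ag.sig.Final
import Pool.Agent.Lib.MP_446dfa_ag.ddi.Grading

set_option linter.all false

/-!
# The leading term of an element of `GT₁(K)` is in `grt₁`
-/

noncomputable section

namespace MP446G

open MP446 MP446Y MP446Z MP446S Polynomial

universe u

section TR

variable (K : Type u) [Field K] (n : ℕ)

/-- truncated polynomials -/
abbrev TR : Type u := K[X] ⧸ Ideal.span {(X : K[X]) ^ (n + 1)}

/-- the class of the variable -/
def te : TR K n := Ideal.Quotient.mk _ X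

lemma te_pow : te K n ^ (n + 1) = 0 := by
  unfold te
  rw [← map_pow, Ideal.Quotient.eq_zero_iff_mem]
  exact Ideal.mem_span_singleton_self _

lemma te_nilp : IsNilpotent (te K n) := ⟨n + 1, te_pow K n⟩

/-- the coefficient of `ε ^ n` -/
def muL : TR K n →ₗ[K] K :=
  (Submodule.liftQ ((Ideal.span {(X : K[X]) ^ (n + 1)}).restrictScalars K) (lcoeff K n) (by
    intro p hp
    rw [Submodule.restrictScalars_mem, Ideal.mem_span_singleton] at hp
    obtain ⟨q, rfl⟩ := hp
    rw [LinearMap.mem_ker, lcoeff_apply, coeff_X_pow_mul']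
    simp)) ∘ₗ
  (Submodule.Quotient.restrictScalarsEquiv K (Ideal.span {(X : K[X]) ^ (n + 1)})).symm.toLinearMap

lemma muL_spec (c : K) : muL K n (te K n ^ n * algebraMap K (TR K n) c) = c := by
  have : te K n ^ n * algebraMap K (TR K n) c = Ideal.Quotient.mk _ (C c * X ^ n) := by
    rw [mul_comm, map_mul, map_pow]; rfl
  rw [this]
  change lcoeff K n (C c * X ^ n) = c
  rw [lcoeff_apply, coeff_C_mul, coeff_X_pow]
  simp

end TR

section Fin

lemma nil_smul {R : Type u} [CommRing R] {ε : R} (h : IsNilpotent ε) (i : Fin 2) :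
    IsNilpotent (ε • lt R i : AA R) := by
  obtain ⟨N, hN⟩ := h
  exact ⟨N, by rw [_root_.smul_pow, hN, zero_smul]⟩

variable {K : Type u} [Field K] {n : ℕ}

/-- base change of a polynomial -/
def bch (n : ℕ) (Q : AA K) : AA (TR K n) := mm (algebraMap K (TR K n)).toAddMonoidHom Q

lemma EV_bch {E : Type u} [Ring E] [Algebra K E] [Algebra (TR K n) E]
    [IsScalarTower K (TR K n) E] (a b : E) (Q : AA K) :
    EV a b (bch n Q) = EV a b Q := by
  induction Q using MonoidAlgebra.induction_linear with
  | zero => unfold bch; rw [map_zero, map_zero, map_zero]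
  | add f g hf hg =>
    unfold bch at hf hg ⊢
    rw [map_add, map_add, map_add, hf, hg]
  | single w c =>
    unfold bch
    rw [mm_single, single_eq, single_eq, map_smul, map_smul, EV_ow, EV_ow]
    exact algebraMap_smul (M := E) (TR K n) c _

lemma bch_eq (Q : AA K) : bch n Q = EV (lt (TR K n) 0) (lt (TR K n) 1) Q := by
  have h := EV_bch (n := n) (lt (TR K n) 0) (lt (TR K n) 1) Q
  rw [EV_self] at h
  exact h

lemma EV_bch2 (U V Q : AA K) : EV (bch n U) (bch n V) (bch n Q) = bch n (EV U V Q) := by
  rw [EV_bch, bch_eq, bch_eq, bch_eq]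
  exact (map_EV (EV (k := K) (lt (TR K n) 0) (lt (TR K n) 1)) U V Q).symm

lemma cf_mm {k : Type*} [CommRing k] {l : Type*} [CommRing l] (μ : k →+ l) (X : AA k)
    (w : List (Fin 2)) : cf (mm μ X) w = μ (cf X w) := rfl

lemma mm_back (Q : AA K) :
    mm (muL K n).toAddMonoidHom (te K n ^ n • bch n Q) = Q := by
  apply AA_ext
  intro w
  rw [cf_mm, cf_smul]
  exact muL_spec K n (cf Q w)

variable {f : List (Fin 2) → K}

/-- the pentagon relation of the leading term -/
lemma pent_of_GT (hf : IsGT1 f) (hn : 1 ≤ n)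
    (hv : ∀ w : List (Fin 2), w ≠ [] → w.length < n → f w = 0) :
    PLt (ee K) (part f n) := by
  have h := pent_lead (E := Module.End (TR K n) (FA (TR K n) (Fin 3))) hf hn hv (te_pow K n)
    (xx (te_nilp K n)) (ee (TR K n)) (pureBraid_xx _) (fun i j hij => lead_xx _ i j hij)
  have h2 : PLt (ee (TR K n)) (te K n ^ n • bch n (part f n)) := by
    unfold PLt
    simp only [map_smul, EV_bch, ← smul_add]
    exact h
  have h3 := PLt_mm (μ := (muL K n).toAddMonoidHom) h2
  rwa [mm_back] at h3

/-- the leading term is a Lie polynomial -/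
lemma dyn_of_GT (hf : IsGT1 f) (hn : 1 ≤ n)
    (hv : ∀ w : List (Fin 2), w ≠ [] → w.length < n → f w = 0) :
    Dyn (part f n) = (n : K) • part f n := by
  set R := TR K n with hR
  set ε := te K n with hε'
  have hε : ε ^ (n + 1) = 0 := te_pow K n
  let E := Module.End R (TrivSqZeroExt (AA R) (AA R))
  have c : ∀ i j : Fin 2, Commute (ε • (Lop i + ε • 0) : E) (ε • (Rop j + ε • 0)) := by
    intro i j
    rw [smul_zero, add_zero, add_zero]
    change _ * _ = _ * _
    rw [smul_mul_smul_comm, smul_mul_smul_comm, Lop_Rop]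
  have h := hf.grouplike E (n + 1) (epsI K E ε) (isNilp_eps hε)
    (ε • (Lop 0 + ε • 0)) ⟨_, rfl⟩ (ε • (Lop 1 + ε • 0)) ⟨_, rfl⟩
    (ε • (Rop 0 + ε • 0)) ⟨_, rfl⟩ (ε • (Rop 1 + ε • 0)) ⟨_, rfl⟩ (c 0 0) (c 0 1) (c 1 0) (c 1 1)
  have e1 : (ε • (Lop 0 + ε • 0) + ε • (Rop 0 + ε • 0) : E) = ε • ((Lop 0 + Rop 0) + ε • 0) := by
    simp only [smul_zero, add_zero, smul_add]
  have e2 : (ε • (Lop 1 + ε • 0) + ε • (Rop 1 + ε • 0) : E) = ε • ((Lop 1 + Rop 1) + ε • 0) := by
    simp only [smul_zero, add_zero, smul_add]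
  rw [e1, e2, val_eps hf.const hn hv hε, val_eps hf.const hn hv hε, val_eps hf.const hn hv hε,
    one_add_mul hn hε] at h
  have h2 := add_left_cancel h
  rw [← EV_bch (n := n), ← EV_bch (n := n), ← EV_bch (n := n)] at h2
  have h3 : ε ^ n • (TrivSqZeroExt.snd (EV (Lop 0 + Rop 0 : Module.End R
      (TrivSqZeroExt (AA R) (AA R))) (Lop 1 + Rop 1) (bch n (part f n)) 1)) =
      ε ^ n • (TrivSqZeroExt.snd (EV (Lop 0 : Module.End R (TrivSqZeroExt (AA R) (AA R)))
        (Lop 1) (bch n (part f n)) 1) + TrivSqZeroExt.snd (EV (Rop 0 : Module.End R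
        (TrivSqZeroExt (AA R) (AA R))) (Rop 1) (bch n (part f n)) 1)) :=
    congrArg (fun T : E => (T 1).snd) h2
  obtain ⟨z, hz⟩ := EV_Rop (bch n (part f n))
  rw [EV_LRop, hz, TrivSqZeroExt.snd_inl, add_zero] at h3
  have h4 : Dyn (mm (muL K n).toAddMonoidHom (ε ^ n • bch n (part f n))) =
      mm (muL K n).toAddMonoidHom (ε ^ n • Dyn (bch n (part f n))) := by
    rw [← mm_Dyn]
    congr 1
    exact MP446S.Dyn_smul _ _
  rw [mm_back, h3] at h4
  rw [h4]
  apply AA_ext
  intro w
  rw [cf_mm, cf_smul, EV_Lop, cf_smul, cf_part]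
  change muL K n (ε ^ n * ((w.length : R) * algebraMap K R (cf (part f n) w))) = _
  rw [cf_part]
  by_cases hw : w.length = n
  · rw [if_pos hw, hw]
    have e3 : ε ^ n * ((n : R) * algebraMap K R (f w)) = ε ^ n * algebraMap K R ((n : K) * f w) := by
      rw [map_mul, map_natCast]
    rw [e3]
    exact muL_spec K n _
  · rw [if_neg hw]
    simp

/-- the cycle relation of the leading term -/
lemma cycle_of_GT (hf : IsGT1 f) (hn : 1 ≤ n)
    (hv : ∀ w : List (Fin 2), w ≠ [] → w.length < n → f w = 0) :
    EV (-lt K 0 - lt K 1) (lt K 0) (part f n) + EV (lt K 1) (-lt K 0 - lt K 1) (part f n) +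
      part f n = 0 := by
  set R := TR K n with hR
  set ε := te K n with hε'
  have hε : ε ^ (n + 1) = 0 := te_pow K n
  have hnil : ∀ i : Fin 2, IsNilpotent (ε • lt R i : AA R) := nil_smul ⟨n + 1, hε⟩
  let x : (AA R)ˣ := (hnil 0).isUnit_one_add.unit
  let y : (AA R)ˣ := (hnil 1).isUnit_one_add.unit
  have lx : Lead ε (x : AA R) (lt R 0) := ⟨0, by
    change 1 + ε • lt R 0 = _
    rw [smul_zero, add_zero]⟩
  have ly : Lead ε (y : AA R) (lt R 1) := ⟨0, by
    change 1 + ε • lt R 1 = _
    rw [smul_zero, add_zero]⟩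
  have lz : Lead ε (((x * y)⁻¹ : (AA R)ˣ) : AA R) (-lt R 0 - lt R 1) := by
    have h : Lead ε ((x * y : (AA R)ˣ) : AA R) (lt R 0 + lt R 1) := by
      rw [Units.val_mul]
      exact lx.mul ly
    have h2 := h.inv
    rwa [neg_add, ← sub_eq_add_neg] at h2
  have h := hf.hexagon (AA R) (n + 1) (epsI K (AA R) ε) (isNilp_eps hε) x y
    (((x * y)⁻¹ : (AA R)ˣ) : AA R) lx.mem ly.mem lz.mem (by
      rw [← Units.val_mul, ← Units.val_mul, mul_inv_cancel, Units.val_one])
  rw [app_lead hf.const hn hv hε lz lx, app_lead hf.const hn hv hε ly lz,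
    app_lead hf.const hn hv hε lx ly, one_add_mul hn hε, one_add_mul hn hε, add_eq_left] at h
  rw [← EV_bch (n := n), ← EV_bch (n := n), ← EV_bch (n := n), EV_self] at h
  have b1 : ∀ i, bch n (lt K i) = lt R i := by
    intro i
    rw [bch_eq]
    fin_cases i
    · exact EV_letter_zero _ _
    · exact EV_letter_one _ _
  have b0 : bch n (-lt K 0 - lt K 1) = -lt R 0 - lt R 1 := by
    rw [← b1, ← b1, bch_eq, bch_eq, bch_eq, map_sub, map_neg]
  rw [← b0, ← b1, ← b1, EV_bch2, EV_bch2] at h
  have h2 := congrArg (mm (muL K n).toAddMonoidHom) h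
  rw [smul_add, smul_add, map_add, map_add, mm_back, mm_back, mm_back, map_zero] at h2
  exact h2

end Fin

section Main

variable {K : Type u} [Field K] [CharZero K] {n : ℕ} {f : List (Fin 2) → K}

lemma isGRT_zero : IsGRT (0 : F2 K) := (grtS K).zero_mem

/-- **The leading term of an element of `GT₁(K)` is in `grt₁`.** -/
theorem leading_term (hf : IsGT1 f) (hn : 1 ≤ n)
    (hv : ∀ w : List (Fin 2), w ≠ [] → w.length < n → f w = 0) :
    ∃ ψ : F2 K, IsGRT ψ ∧ ∀ w : List (Fin 2), coef ψ w = if w.length = n then f w else 0 := by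
  obtain ⟨ψ, hψ⟩ := specDSW2 K n (part f n) hn (dyn_of_GT hf hn hv)
  have hc : ∀ w : List (Fin 2), coef ψ w = if w.length = n then f w else 0 := by
    intro w
    rw [coef_eq_cf, hψ, cf_part]
  refine ⟨ψ, ?_, hc⟩
  by_cases h3 : 3 ≤ n
  · apply isGRT_of specS4 specF1 (specF2 specF1 specMODEL)
      (specF3 specMODEL specF1 (specF2 specF1 specMODEL)) h3
    · intro w hw
      rw [hψ, cf_part, if_neg hw]
    · rw [hψ]
      exact pent_of_GT hf hn hv
  · have h0 : ψ = 0 := by
      apply assoc_injective
      rw [map_zero]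
      apply AA_ext
      intro w
      change coef ψ w = cf 0 w
      rw [cf_zero]
      have hn' : n = 1 ∨ n = 2 := by omega
      rcases hn' with rfl | rfl
      · rw [hc w]
        split_ifs with h
        · obtain ⟨i, rfl⟩ := List.length_eq_one_iff.1 h
          exact hf.lin i
        · rfl
      · -- degree two
        have hrel0 := lie_rel ψ 0
        have hrel1 := lie_rel ψ 1
        have h00 : coef ψ [0, 0] = 0 := by
          have := hrel0 [0] (by simp)
          simp only [insSum] at this
          change coef ψ [0, 0] + coef ψ [0, 0] = 0 at this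
          rw [← two_mul, mul_eq_zero] at this
          rcases this with h | h
          · exact absurd h two_ne_zero
          · exact h
        have h11 : coef ψ [1, 1] = 0 := by
          have := hrel1 [1] (by simp)
          simp only [insSum] at this
          change coef ψ [1, 1] + coef ψ [1, 1] = 0 at this
          rw [← two_mul, mul_eq_zero] at this
          rcases this with h | h
          · exact absurd h two_ne_zero
          · exact h
        have h01 : coef ψ [0, 1] + coef ψ [1, 0] = 0 := by
          have := hrel0 [1] (by simp)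
          simp only [insSum] at this
          exact this
        have hQ : part f 2 = (coef ψ [0, 1]) • (ow K [0, 1] - ow K [1, 0]) := by
          apply AA_ext
          intro v
          have hv' : cf (part f 2) v = coef ψ v := by rw [← hψ]; rfl
          rw [hv', cf_smul, cf_sub, cf_ow, cf_ow]
          by_cases hw : v.length = 2
          · obtain ⟨a, b, rfl⟩ := List.length_eq_two.1 hw
            fin_cases a <;> fin_cases b
            · simpa using h00
            · simp
            · simp
              exact eq_neg_of_add_eq_zero_right h01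
            · simpa using h11
          · rw [hc v, if_neg hw, if_neg (by rintro rfl; simp at hw),
              if_neg (by rintro rfl; simp at hw)]
            simp
        have hcy := cycle_of_GT hf hn hv
        rw [hQ] at hcy
        simp only [map_smul, map_sub, EV_ow, List.map_cons, List.map_nil, List.prod_cons,
          List.prod_nil, mul_one, Matrix.cons_val_zero, Matrix.cons_val_one] at hcy
        have e3 : ∀ c : K, ∀ x y : AA K,
            c • ((-x - y) * x - x * (-x - y)) + c • (y * (-x - y) - (-x - y) * y) +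
              c • (x * y - y * x) = c • (3 : K) • (x * y - y * x) := by
          intro c x y
          rw [← smul_add, ← smul_add]
          congr 1
          rw [show (3 : K) = 1 + 1 + 1 by norm_num, add_smul, add_smul, one_smul]
          noncomm_ring
        have e4 : (ow K [0, 1] : AA K) = lt K 0 * lt K 1 := by
          rw [show [0, 1] = [0] ++ [(1 : Fin 2)] from rfl, ow_append]; rfl
        have e5 : (ow K [1, 0] : AA K) = lt K 1 * lt K 0 := by
          rw [show [1, 0] = [1] ++ [(0 : Fin 2)] from rfl, ow_append]; rfl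
        rw [e4, e5, e3, ← e4, ← e5] at hcy
        have h5 := congrArg (fun X : AA K => cf X [0, 1]) hcy
        simp only [cf_smul, cf_sub, cf_ow, cf_zero] at h5
        simp at h5
        have h10 : coef ψ [1, 0] = 0 := by rw [h5, zero_add] at h01; exact h01
        by_cases hw : w.length = 2
        · obtain ⟨a, b, rfl⟩ := List.length_eq_two.1 hw
          fin_cases a <;> fin_cases b
          · exact h00
          · exact h5
          · exact h10
          · exact h11
        · rw [hc w, if_neg hw]
    rw [h0]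
    exact isGRT_zero

end Main

end MP446G
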