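import Pool.Agent.Lib.MP_446dfa_ag.gt.Defs
import Pool.Agent.Lib.MP_446dfa_ag.sig.Basic
import Pool.Agent.Lib.MP_446dfa_ag.sig.Desc

set_option linter.all false

/-!
# Leading terms: general facts
-/

noncomputable section

namespace MP446G

open MP446 MP446Y MP446Z MP446S

universe u

attribute [local instance 100] LieRing.ofAssociativeRing

section Lead

variable {K : Type u} [Field K] {R : Type u} [CommRing R] [Algebra K R] {E : Type u} [Ring E]
  [Algebra K E] [Algebra R E] [IsScalarTower K R E]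

lemma sm_comm (c : K) (r : R) (x : E) : c • r • x = r • c • x := by
  rw [← algebraMap_smul R c (r • x), ← algebraMap_smul R c x, smul_smul, smul_smul, mul_comm]

variable (K E) in
/-- the multiples of `ε` -/
def epsI (ε : R) : Submodule K E where
  carrier := {a | ∃ c : E, a = ε • c}
  add_mem' := by
    rintro _ _ ⟨c, rfl⟩ ⟨d, rfl⟩
    exact ⟨c + d, by rw [smul_add]⟩
  zero_mem' := ⟨0, by rw [smul_zero]⟩
  smul_mem' := by
    rintro k _ ⟨c, rfl⟩
    exact ⟨k • c, sm_comm _ _ _⟩

lemma mem_epsI {ε : R} {a : E} : a ∈ epsI K E ε ↔ ∃ c : E, a = ε • c := Iff.rfl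

variable {ε : R} {n : ℕ}

lemma prod_eps (l : List E) (h : ∀ x ∈ l, x ∈ epsI K E ε) : ∃ c : E, l.prod = ε ^ l.length • c := by
  induction l with
  | nil => exact ⟨1, by simp⟩
  | cons x l ih =>
    obtain ⟨c, hc⟩ := ih (fun y hy => h y (List.mem_cons_of_mem _ hy))
    obtain ⟨d, hd⟩ := h x List.mem_cons_self
    exact ⟨d * c, by rw [List.prod_cons, hc, hd, smul_mul_smul_comm, List.length_cons, pow_succ,
      mul_comm ε]⟩

lemma isNilp_eps (hε : ε ^ (n + 1) = 0) : IsNilp (n + 1) (epsI K E ε) where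
  mul_mem := by
    rintro _ ⟨c, rfl⟩ y _
    exact ⟨c * y, by rw [smul_mul_assoc]⟩
  prod_zero := by
    intro l hl hn
    obtain ⟨c, hc⟩ := prod_eps l hl
    rw [hc, hn, hε, zero_smul]

lemma word_eps (w : List (Fin 2)) (A B s t : E) :
    ∃ c : E, (w.map ![ε • (A + ε • s), ε • (B + ε • t)]).prod =
      ε ^ w.length • ((w.map ![A, B]).prod + ε • c) := by
  induction w with
  | nil => exact ⟨0, by simp⟩
  | cons i w ih =>
    obtain ⟨c, hc⟩ := ih
    have key : ∀ (A s : E), ∃ c' : E, (ε • (A + ε • s)) * (ε ^ w.length • ((w.map ![A, B]).prod + ε • c))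
        = ε ^ (w.length + 1) • (A * (w.map ![A, B]).prod + ε • c') := by
      intro A s
      refine ⟨A * c + s * (w.map ![A, B]).prod + ε • (s * c), ?_⟩
      rw [smul_mul_smul_comm, pow_succ, mul_comm ε]
      congr 1
      rw [add_mul, mul_add, mul_add, mul_smul_comm, smul_mul_assoc, smul_mul_smul_comm, smul_add,
        smul_add, smul_smul]
      abel
    have key2 : ∀ (X s : E), ∃ c' : E, (ε • (X + ε • s)) * (ε ^ w.length • ((w.map ![A, B]).prod + ε • c))
        = ε ^ (w.length + 1) • (X * (w.map ![A, B]).prod + ε • c') := by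
      intro X s
      refine ⟨X * c + s * (w.map ![A, B]).prod + ε • (s * c), ?_⟩
      rw [smul_mul_smul_comm, pow_succ, mul_comm ε]
      congr 1
      rw [add_mul, mul_add, mul_add, mul_smul_comm, smul_mul_assoc, smul_mul_smul_comm, smul_add,
        smul_add, smul_smul]
      abel
    rw [List.map_cons, List.prod_cons, hc, List.map_cons, List.prod_cons, List.length_cons]
    fin_cases i
    · exact key2 A s
    · exact key2 B t

/-- the polynomial with the coefficients of `f` at the words of length `n` -/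
def part (f : List (Fin 2) → K) (n : ℕ) : AA K :=
  ∑ v ∈ (wl (n + 1)).filter (fun v => v.length = n), f v • ow K v

lemma cf_part (f : List (Fin 2) → K) (n : ℕ) (w : List (Fin 2)) :
    cf (part f n) w = if w.length = n then f w else 0 := by
  classical
  unfold part
  rw [cf_sum]
  simp only [cf_smul, cf_ow, mul_ite, mul_one, mul_zero]
  rw [Finset.sum_ite_eq']
  simp only [Finset.mem_filter, mem_wl]
  by_cases h : w.length = n
  · rw [if_pos ⟨by omega, h⟩, if_pos h]
  · rw [if_neg (fun h' => h h'.2), if_neg h]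

lemma EV_part (f : List (Fin 2) → K) (n : ℕ) (A B : E) :
    EV A B (part f n) = ∑ v ∈ (wl (n + 1)).filter (fun v => v.length = n),
      f v • (v.map ![A, B]).prod := by
  unfold part
  rw [map_sum]
  refine Finset.sum_congr rfl (fun v _ => ?_)
  rw [map_smul, EV_ow]

lemma val_eps {f : List (Fin 2) → K} (h0 : f [] = 1) (hn : 1 ≤ n)
    (hf : ∀ w : List (Fin 2), w ≠ [] → w.length < n → f w = 0) (hε : ε ^ (n + 1) = 0)
    (A B s t : E) :
    val f (ε • (A + ε • s)) (ε • (B + ε • t)) = 1 + ε ^ n • EV A B (part f n) := by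
  classical
  unfold val
  rw [finsum_eq_sum_of_support_subset (s := wl (n + 1))]
  · rw [EV_part, Finset.smul_sum, ← Finset.sum_filter_add_sum_filter_not (wl (n + 1))
      (fun v => v.length = n), add_comm]
    congr 1
    · rw [Finset.sum_eq_single []]
      · simp [h0]
      · intro w hw hne
        rw [Finset.mem_filter, mem_wl] at hw
        rw [hf w hne (by have := hw.1; have := hw.2; omega), zero_smul]
      · intro h
        exfalso
        apply h
        rw [Finset.mem_filter, mem_wl]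
        simp
        omega
    · refine Finset.sum_congr rfl (fun v hv => ?_)
      rw [Finset.mem_filter] at hv
      obtain ⟨c, hc⟩ := word_eps (ε := ε) v A B s t
      rw [hc, hv.2, smul_add, smul_smul, ← pow_succ, hε, zero_smul, add_zero, sm_comm]
  · intro w hw
    rw [Finset.mem_coe, mem_wl]
    by_contra h
    apply hw
    obtain ⟨c, hc⟩ := word_eps (ε := ε) w A B s t
    have : ε ^ w.length = 0 := by
      rw [show w.length = (n + 1) + (w.length - (n + 1)) by omega, pow_add, hε, zero_mul]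
    change f w • (w.map ![ε • (A + ε • s), ε • (B + ε • t)]).prod = 0
    rw [hc, this, zero_smul, smul_zero]

/-- `g = 1 + ε A + O(ε²)` -/
def Lead (ε : R) (g A : E) : Prop := ∃ s : E, g = 1 + ε • (A + ε • s)

lemma Lead.mul {g A h B : E} (hg : Lead ε g A) (hh : Lead ε h B) : Lead ε (g * h) (A + B) := by
  obtain ⟨s, rfl⟩ := hg
  obtain ⟨t, rfl⟩ := hh
  refine ⟨s + t + (A + ε • s) * (B + ε • t), ?_⟩
  rw [add_mul, one_mul, mul_add, mul_one, smul_mul_smul_comm, ← smul_smul]
  simp only [smul_add]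
  abel

lemma Lead.mem {g A : E} (hg : Lead ε g A) : g - 1 ∈ epsI K E ε := by
  obtain ⟨s, rfl⟩ := hg
  exact ⟨A + ε • s, by abel⟩

lemma Lead.log (hε : ε ^ (n + 1) = 0) {g A : E} (hg : Lead ε g A) :
    ∃ s : E, logU K g = ε • (A + ε • s) := by
  obtain ⟨s, rfl⟩ := hg
  unfold logU
  have h1 : ∀ k : ℕ, (1 + ε • (A + ε • s) - 1 : E) ^ (k + 1) = ε ^ (k + 1) • (A + ε • s) ^ (k + 1) := by
    intro k
    rw [add_sub_cancel_left, smul_pow]
  simp only [h1]
  rw [finsum_eq_sum_of_support_subset (s := Finset.range (n + 1)), Finset.sum_range_succ']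
  · refine ⟨s + ∑ k ∈ Finset.range n, ((-1 : K) ^ (k + 1) / ((k + 1 : ℕ) + 1)) •
      (ε ^ k • (A + ε • s) ^ (k + 1 + 1)), ?_⟩
    rw [smul_add ε s, ← add_assoc, smul_add ε (A + ε • s), add_comm]
    congr 1
    · simp
    · rw [Finset.smul_sum, Finset.smul_sum]
      refine Finset.sum_congr rfl (fun k _ => ?_)
      rw [← sm_comm, ← sm_comm, smul_smul ε ε]
      congr 1
      rw [smul_smul]
      congr 1
      ring
  · intro k hk
    rw [Finset.mem_coe, Finset.mem_range]
    by_contra h
    apply hk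
    have : ε ^ (k + 1) = 0 := by
      rw [show k + 1 = (n + 1) + (k - n) by omega, pow_add, hε, zero_mul]
    change ((-1 : K) ^ k / ((k : K) + 1)) • (ε ^ (k + 1) • (A + ε • s) ^ (k + 1)) = 0
    rw [this, zero_smul, smul_zero]

lemma app_lead {f : List (Fin 2) → K} (h0 : f [] = 1) (hn : 1 ≤ n)
    (hf : ∀ w : List (Fin 2), w ≠ [] → w.length < n → f w = 0) (hε : ε ^ (n + 1) = 0)
    {g A h B : E} (hg : Lead ε g A) (hh : Lead ε h B) :
    app f g h = 1 + ε ^ n • EV A B (part f n) := by
  obtain ⟨s, hs⟩ := hg.log (K := K) hε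
  obtain ⟨t, ht⟩ := hh.log (K := K) hε
  unfold app
  rw [hs, ht, val_eps h0 hn hf hε]

lemma one_add_mul (hn : 1 ≤ n) (hε : ε ^ (n + 1) = 0) (P P' : E) :
    (1 + ε ^ n • P) * (1 + ε ^ n • P') = 1 + ε ^ n • (P + P') := by
  have : ε ^ n * ε ^ n = 0 := by
    rw [← pow_add, show n + n = (n + 1) + (n - 1) by omega, pow_add, hε, zero_mul]
  rw [add_mul, one_mul, mul_add, mul_one, smul_mul_smul_comm, this, zero_smul, add_zero, smul_add]
  abel

/-- the leading term of the pentagon relation -/
lemma pent_lead {f : List (Fin 2) → K} (hf : IsGT1 f) (hn : 1 ≤ n)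
    (hv : ∀ w : List (Fin 2), w ≠ [] → w.length < n → f w = 0) (hε : ε ^ (n + 1) = 0)
    (x : Fin 4 → Fin 4 → Eˣ) (t : Fin 4 → Fin 4 → E) (hx : PureBraid x)
    (hl : ∀ i j, i < j → Lead ε (x i j : E) (t i j)) :
    ε ^ n • (EV (t 0 1) (t 1 2 + t 1 3) (part f n) + EV (t 0 2 + t 1 2) (t 2 3) (part f n)) =
      ε ^ n • (EV (t 1 2) (t 2 3) (part f n) + EV (t 0 1 + t 0 2) (t 1 3 + t 2 3) (part f n) +
        EV (t 0 1) (t 1 2) (part f n)) := by
  have h := hf.pentagon E (n + 1) (epsI K E ε) (isNilp_eps hε) x hx (fun i j hij => (hl i j hij).mem)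
  have l01 := hl 0 1 (by decide)
  have l02 := hl 0 2 (by decide)
  have l12 := hl 1 2 (by decide)
  have l13 := hl 1 3 (by decide)
  have l23 := hl 2 3 (by decide)
  rw [app_lead hf.const hn hv hε l01 (l12.mul l13), app_lead hf.const hn hv hε (l02.mul l12) l23,
    app_lead hf.const hn hv hε l12 l23, app_lead hf.const hn hv hε (l01.mul l02) (l13.mul l23),
    app_lead hf.const hn hv hε l01 l12, one_add_mul hn hε, one_add_mul hn hε,
    one_add_mul hn hε] at h
  exact add_left_cancel h

end Lead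

end MP446G
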