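import Pool.Agent.Lib.MP_446dfa_ag.gt.Lead
import Pool.Agent.Lib.MP_446dfa_ag.sig.MODEL

set_option linter.all false

/-!
# A representation of the pure braid group on four strands
-/

noncomputable section

namespace MP446G

open MP446 MP446Y MP446Z MP446S

universe u

section Rep

variable {R : Type u} [CommRing R] {ε : R}

/-- the unit `1 + ε x_k` -/
def eu (hε : IsNilpotent ε) (k : Fin 3) : (FA R (Fin 3))ˣ :=
  (IsNilpotent.isUnit_one_add (r := ε • letter R k) (by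
    obtain ⟨N, hN⟩ := hε
    exact ⟨N, by rw [smul_pow, hN, zero_smul]⟩)).unit

lemma eu_val (hε : IsNilpotent ε) (k : Fin 3) :
    ((eu hε k : (FA R (Fin 3))ˣ) : FA R (Fin 3)) = 1 + ε • letter R k := rfl

/-- the endomorphism `x_k ↦ u_k x_k u_k⁻¹` -/
def AA' (u : Fin 3 → (FA R (Fin 3))ˣ) : FA R (Fin 3) →ₐ[R] FA R (Fin 3) :=
  EVn (fun k => (u k : FA R (Fin 3)) * letter R k * ((u k)⁻¹ : (FA R (Fin 3))ˣ))

lemma AA'_letter (u : Fin 3 → (FA R (Fin 3))ˣ) (k : Fin 3) :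
    AA' u (letter R k) = (u k : FA R (Fin 3)) * letter R k * ((u k)⁻¹ : (FA R (Fin 3))ˣ) :=
  EVn_letter _ _

/-- the induced map on units -/
def ph (u : Fin 3 → (FA R (Fin 3))ˣ) : (FA R (Fin 3))ˣ →* (FA R (Fin 3))ˣ :=
  Units.map (AA' u : FA R (Fin 3) →* FA R (Fin 3))

lemma ph_val (u : Fin 3 → (FA R (Fin 3))ˣ) (g : (FA R (Fin 3))ˣ) :
    (ph u g : FA R (Fin 3)) = AA' u g := rfl

lemma ph_eu (hε : IsNilpotent ε) (u : Fin 3 → (FA R (Fin 3))ˣ) (k : Fin 3) :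
    ph u (eu hε k) = u k * eu hε k * (u k)⁻¹ := by
  apply Units.ext
  rw [ph_val, eu_val, map_add, map_one, map_smul, AA'_letter, Units.val_mul, Units.val_mul, eu_val,
    mul_add, add_mul, mul_one, Units.mul_inv, mul_smul_comm, smul_mul_assoc]

lemma AA'_comp (u v : Fin 3 → (FA R (Fin 3))ˣ) (X : FA R (Fin 3)) :
    AA' u (AA' v X) = AA' (fun k => ph u (v k) * u k) X := by
  have h : (AA' u).comp (AA' v) = AA' (fun k => ph u (v k) * u k) := by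
    apply EVn_hom_ext
    intro k
    rw [AlgHom.comp_apply, AA'_letter, AA'_letter, map_mul, map_mul, AA'_letter, mul_inv_rev,
      Units.val_mul, Units.val_mul, ph_val, ← map_inv, ph_val]
    simp only [mul_assoc]
  exact DFunLike.congr_fun h X

lemma AA'_one (X : FA R (Fin 3)) : AA' (fun _ => 1) X = X := by
  have h : AA' (fun _ => 1) = AlgHom.id R (FA R (Fin 3)) := by
    apply EVn_hom_ext
    intro k
    rw [AA'_letter]
    simp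
  rw [h]; rfl

/-- left multiplication by units -/
def Lg : (FA R (Fin 3))ˣ →* (Module.End R (FA R (Fin 3)))ˣ :=
  Units.map (Algebra.lmul R (FA R (Fin 3)) : FA R (Fin 3) →* Module.End R (FA R (Fin 3)))

lemma Lg_apply (g : (FA R (Fin 3))ˣ) (X : FA R (Fin 3)) :
    ((Lg g : (Module.End R (FA R (Fin 3)))ˣ) : Module.End R (FA R (Fin 3))) X = g * X := rfl

/-- the automorphism attached to two mutually inverse systems -/
def au (u v : Fin 3 → (FA R (Fin 3))ˣ) (h1 : ∀ k, ph u (v k) * u k = 1)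
    (h2 : ∀ k, ph v (u k) * v k = 1) : (Module.End R (FA R (Fin 3)))ˣ where
  val := (AA' u).toLinearMap
  inv := (AA' v).toLinearMap
  val_inv := by
    apply LinearMap.ext
    intro X
    change AA' u (AA' v X) = X
    rw [AA'_comp]
    simp only [h1]
    exact AA'_one X
  inv_val := by
    apply LinearMap.ext
    intro X
    change AA' v (AA' u X) = X
    rw [AA'_comp]
    simp only [h2]
    exact AA'_one X

lemma au_mul_Lg (u v : Fin 3 → (FA R (Fin 3))ˣ) (h1 : ∀ k, ph u (v k) * u k = 1)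
    (h2 : ∀ k, ph v (u k) * v k = 1) (g : (FA R (Fin 3))ˣ) :
    au u v h1 h2 * Lg g = Lg (ph u g) * au u v h1 h2 := by
  apply Units.ext
  apply LinearMap.ext
  intro X
  change AA' u (g * X) = AA' u g * AA' u X
  rw [map_mul]

lemma inv_mul_Lg (u v : Fin 3 → (FA R (Fin 3))ˣ) (h1 : ∀ k, ph u (v k) * u k = 1)
    (h2 : ∀ k, ph v (u k) * v k = 1) (g : (FA R (Fin 3))ˣ) :
    (au u v h1 h2)⁻¹ * Lg g * au u v h1 h2 = Lg (ph v g) := by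
  rw [mul_assoc, inv_mul_eq_iff_eq_mul, au_mul_Lg]
  congr 1
  congr 1
  apply Units.ext
  change (g : FA R (Fin 3)) = AA' u (AA' v g)
  rw [AA'_comp]
  simp only [h1]
  rw [AA'_one]

lemma comm_Lg (u v : Fin 3 → (FA R (Fin 3))ˣ) (h1 : ∀ k, ph u (v k) * u k = 1)
    (h2 : ∀ k, ph v (u k) * v k = 1) (g : (FA R (Fin 3))ˣ) (h : ph u g = g) :
    Commute (au u v h1 h2) (Lg g) := by
  change au u v h1 h2 * Lg g = Lg g * au u v h1 h2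
  rw [au_mul_Lg, h]

lemma comm_au_Lg (u v : Fin 3 → (FA R (Fin 3))ˣ) (h1 : ∀ k, ph u (v k) * u k = 1)
    (h2 : ∀ k, ph v (u k) * v k = 1) (w h : (FA R (Fin 3))ˣ) (hh : ph u (w * h) = h * ph u w) :
    Commute (au u v h1 h2 * Lg w) (Lg h) := by
  change au u v h1 h2 * Lg w * Lg h = Lg h * (au u v h1 h2 * Lg w)
  rw [mul_assoc, ← map_mul, au_mul_Lg, au_mul_Lg, hh, map_mul, mul_assoc]

lemma au_comm (u v u' v' : Fin 3 → (FA R (Fin 3))ˣ) (h1 : ∀ k, ph u (v k) * u k = 1)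
    (h2 : ∀ k, ph v (u k) * v k = 1) (h1' : ∀ k, ph u' (v' k) * u' k = 1)
    (h2' : ∀ k, ph v' (u' k) * v' k = 1)
    (h : ∀ k, ph u (u' k) * u k = ph u' (u k) * u' k) :
    Commute (au u v h1 h2) (au u' v' h1' h2') := by
  apply Units.ext
  apply LinearMap.ext
  intro X
  change AA' u (AA' u' X) = AA' u' (AA' u X)
  rw [AA'_comp, AA'_comp]
  simp only [h]

variable (hε : IsNilpotent ε)

/-- the automorphism `x_12` -/
def u12 : Fin 3 → (FA R (Fin 3))ˣ := ![(eu hε 0 * eu hε 1)⁻¹, (eu hε 0 * eu hε 1)⁻¹, 1]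
/-- its inverse -/
def v12 : Fin 3 → (FA R (Fin 3))ˣ := ![eu hε 0 * eu hε 1, eu hε 0 * eu hε 1, 1]
/-- the automorphism `x_23` -/
def u23 : Fin 3 → (FA R (Fin 3))ˣ := ![1, (eu hε 1 * eu hε 2)⁻¹, (eu hε 1 * eu hε 2)⁻¹]
/-- its inverse -/
def v23 : Fin 3 → (FA R (Fin 3))ˣ := ![1, eu hε 1 * eu hε 2, eu hε 1 * eu hε 2]
/-- the automorphism `x_13` -/
def u13 : Fin 3 → (FA R (Fin 3))ˣ := ![(eu hε 0 * eu hε 2)⁻¹,
  (eu hε 2)⁻¹ * (eu hε 0)⁻¹ * eu hε 2 * eu hε 0, (eu hε 0 * eu hε 2)⁻¹]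
/-- its inverse -/
def v13 : Fin 3 → (FA R (Fin 3))ˣ := ![eu hε 0 * eu hε 2,
  eu hε 0 * eu hε 2 * (eu hε 0)⁻¹ * (eu hε 2)⁻¹, eu hε 0 * eu hε 2]

lemma p12_0 : ph (u12 hε) (eu hε 0) = (eu hε 0 * eu hε 1)⁻¹ * eu hε 0 * (eu hε 0 * eu hε 1) := by
  rw [ph_eu]; simp [u12]
lemma p12_1 : ph (u12 hε) (eu hε 1) = (eu hε 0 * eu hε 1)⁻¹ * eu hε 1 * (eu hε 0 * eu hε 1) := by
  rw [ph_eu]; simp [u12]
lemma p12_2 : ph (u12 hε) (eu hε 2) = eu hε 2 := by rw [ph_eu]; simp [u12]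
lemma q12_0 : ph (v12 hε) (eu hε 0) = (eu hε 0 * eu hε 1) * eu hε 0 * (eu hε 0 * eu hε 1)⁻¹ := by
  rw [ph_eu]; simp [v12]
lemma q12_1 : ph (v12 hε) (eu hε 1) = (eu hε 0 * eu hε 1) * eu hε 1 * (eu hε 0 * eu hε 1)⁻¹ := by
  rw [ph_eu]; simp [v12]
lemma q12_2 : ph (v12 hε) (eu hε 2) = eu hε 2 := by rw [ph_eu]; simp [v12]
lemma p23_0 : ph (u23 hε) (eu hε 0) = eu hε 0 := by rw [ph_eu]; simp [u23]
lemma p23_1 : ph (u23 hε) (eu hε 1) = (eu hε 1 * eu hε 2)⁻¹ * eu hε 1 * (eu hε 1 * eu hε 2) := by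
  rw [ph_eu]; simp [u23]
lemma p23_2 : ph (u23 hε) (eu hε 2) = (eu hε 1 * eu hε 2)⁻¹ * eu hε 2 * (eu hε 1 * eu hε 2) := by
  rw [ph_eu]; simp [u23]
lemma q23_0 : ph (v23 hε) (eu hε 0) = eu hε 0 := by rw [ph_eu]; simp [v23]
lemma q23_1 : ph (v23 hε) (eu hε 1) = (eu hε 1 * eu hε 2) * eu hε 1 * (eu hε 1 * eu hε 2)⁻¹ := by
  rw [ph_eu]; simp [v23]
lemma q23_2 : ph (v23 hε) (eu hε 2) = (eu hε 1 * eu hε 2) * eu hε 2 * (eu hε 1 * eu hε 2)⁻¹ := by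
  rw [ph_eu]; simp [v23]
lemma p13_0 : ph (u13 hε) (eu hε 0) = (eu hε 0 * eu hε 2)⁻¹ * eu hε 0 * (eu hε 0 * eu hε 2) := by
  rw [ph_eu]; simp [u13]
lemma p13_1 : ph (u13 hε) (eu hε 1) = ((eu hε 2)⁻¹ * (eu hε 0)⁻¹ * eu hε 2 * eu hε 0) * eu hε 1 *
    ((eu hε 2)⁻¹ * (eu hε 0)⁻¹ * eu hε 2 * eu hε 0)⁻¹ := by
  rw [ph_eu]; simp [u13]
lemma p13_2 : ph (u13 hε) (eu hε 2) = (eu hε 0 * eu hε 2)⁻¹ * eu hε 2 * (eu hε 0 * eu hε 2) := by
  rw [ph_eu]; simp [u13]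
lemma q13_0 : ph (v13 hε) (eu hε 0) = (eu hε 0 * eu hε 2) * eu hε 0 * (eu hε 0 * eu hε 2)⁻¹ := by
  rw [ph_eu]; simp [v13]
lemma q13_1 : ph (v13 hε) (eu hε 1) = (eu hε 0 * eu hε 2 * (eu hε 0)⁻¹ * (eu hε 2)⁻¹) * eu hε 1 *
    (eu hε 0 * eu hε 2 * (eu hε 0)⁻¹ * (eu hε 2)⁻¹)⁻¹ := by
  rw [ph_eu]; simp [v13]
lemma q13_2 : ph (v13 hε) (eu hε 2) = (eu hε 0 * eu hε 2) * eu hε 2 * (eu hε 0 * eu hε 2)⁻¹ := by
  rw [ph_eu]; simp [v13]

lemma uv12 (k : Fin 3) : ph (u12 hε) (v12 hε k) * u12 hε k = 1 := by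
  fin_cases k
  · change ph (u12 hε) (eu hε 0 * eu hε 1) * (eu hε 0 * eu hε 1)⁻¹ = 1
    rw [map_mul, p12_0, p12_1]; group
  · change ph (u12 hε) (eu hε 0 * eu hε 1) * (eu hε 0 * eu hε 1)⁻¹ = 1
    rw [map_mul, p12_0, p12_1]; group
  · change ph (u12 hε) 1 * 1 = 1
    rw [map_one, mul_one]

lemma vu12 (k : Fin 3) : ph (v12 hε) (u12 hε k) * v12 hε k = 1 := by
  fin_cases k
  · change ph (v12 hε) (eu hε 0 * eu hε 1)⁻¹ * (eu hε 0 * eu hε 1) = 1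
    rw [map_inv, map_mul, q12_0, q12_1]; group
  · change ph (v12 hε) (eu hε 0 * eu hε 1)⁻¹ * (eu hε 0 * eu hε 1) = 1
    rw [map_inv, map_mul, q12_0, q12_1]; group
  · change ph (v12 hε) 1 * 1 = 1
    rw [map_one, mul_one]

lemma uv23 (k : Fin 3) : ph (u23 hε) (v23 hε k) * u23 hε k = 1 := by
  fin_cases k
  · change ph (u23 hε) 1 * 1 = 1
    rw [map_one, mul_one]
  · change ph (u23 hε) (eu hε 1 * eu hε 2) * (eu hε 1 * eu hε 2)⁻¹ = 1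
    rw [map_mul, p23_1, p23_2]; group
  · change ph (u23 hε) (eu hε 1 * eu hε 2) * (eu hε 1 * eu hε 2)⁻¹ = 1
    rw [map_mul, p23_1, p23_2]; group

lemma vu23 (k : Fin 3) : ph (v23 hε) (u23 hε k) * v23 hε k = 1 := by
  fin_cases k
  · change ph (v23 hε) 1 * 1 = 1
    rw [map_one, mul_one]
  · change ph (v23 hε) (eu hε 1 * eu hε 2)⁻¹ * (eu hε 1 * eu hε 2) = 1
    rw [map_inv, map_mul, q23_1, q23_2]; group
  · change ph (v23 hε) (eu hε 1 * eu hε 2)⁻¹ * (eu hε 1 * eu hε 2) = 1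
    rw [map_inv, map_mul, q23_1, q23_2]; group

lemma uv13 (k : Fin 3) : ph (u13 hε) (v13 hε k) * u13 hε k = 1 := by
  fin_cases k
  · change ph (u13 hε) (eu hε 0 * eu hε 2) * (eu hε 0 * eu hε 2)⁻¹ = 1
    rw [map_mul, p13_0, p13_2]; group
  · change ph (u13 hε) (eu hε 0 * eu hε 2 * (eu hε 0)⁻¹ * (eu hε 2)⁻¹) *
      ((eu hε 2)⁻¹ * (eu hε 0)⁻¹ * eu hε 2 * eu hε 0) = 1
    rw [map_mul, map_mul, map_mul, map_inv, map_inv, p13_0, p13_2]; group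
  · change ph (u13 hε) (eu hε 0 * eu hε 2) * (eu hε 0 * eu hε 2)⁻¹ = 1
    rw [map_mul, p13_0, p13_2]; group

lemma vu13 (k : Fin 3) : ph (v13 hε) (u13 hε k) * v13 hε k = 1 := by
  fin_cases k
  · change ph (v13 hε) (eu hε 0 * eu hε 2)⁻¹ * (eu hε 0 * eu hε 2) = 1
    rw [map_inv, map_mul, q13_0, q13_2]; group
  · change ph (v13 hε) ((eu hε 2)⁻¹ * (eu hε 0)⁻¹ * eu hε 2 * eu hε 0) *
      (eu hε 0 * eu hε 2 * (eu hε 0)⁻¹ * (eu hε 2)⁻¹) = 1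
    rw [map_mul, map_mul, map_mul, map_inv, map_inv, q13_0, q13_2]; group
  · change ph (v13 hε) (eu hε 0 * eu hε 2)⁻¹ * (eu hε 0 * eu hε 2) = 1
    rw [map_inv, map_mul, q13_0, q13_2]; group

/-- `x_12` -/
def a12 : (Module.End R (FA R (Fin 3)))ˣ := au (u12 hε) (v12 hε) (uv12 hε) (vu12 hε)
/-- `x_23` -/
def a23 : (Module.End R (FA R (Fin 3)))ˣ := au (u23 hε) (v23 hε) (uv23 hε) (vu23 hε)
/-- `x_13` -/
def a13 : (Module.End R (FA R (Fin 3)))ˣ := au (u13 hε) (v13 hε) (uv13 hε) (vu13 hε)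

/-- the family -/
def xx : Fin 4 → Fin 4 → (Module.End R (FA R (Fin 3)))ˣ :=
  ![![1, a12 hε, a13 hε, Lg (eu hε 0)],
    ![1, 1, a23 hε, Lg (eu hε 1)],
    ![1, 1, 1, Lg (eu hε 2)],
    ![1, 1, 1, 1]]

lemma AA'_congr (u v : Fin 3 → (FA R (Fin 3))ˣ)
    (h : ∀ k, ∃ z : (FA R (Fin 3))ˣ, u k = v k * z ∧ (z : FA R (Fin 3)) * letter R k = letter R k * z) :
    AA' u = AA' v := by
  apply EVn_hom_ext
  intro k
  obtain ⟨z, h1, h2⟩ := h k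
  rw [AA'_letter, AA'_letter, h1, mul_inv_rev, Units.val_mul, Units.val_mul]
  have h3 : (z : FA R (Fin 3)) * letter R k * ((z⁻¹ : (FA R (Fin 3))ˣ) : FA R (Fin 3)) = letter R k := by
    rw [h2, mul_assoc, Units.mul_inv, mul_one]
  calc (v k : FA R (Fin 3)) * z * letter R k * ((z⁻¹ : (FA R (Fin 3))ˣ) * ((v k)⁻¹ : (FA R (Fin 3))ˣ))
      = (v k : FA R (Fin 3)) * (z * letter R k * ((z⁻¹ : (FA R (Fin 3))ˣ) : FA R (Fin 3))) *
        ((v k)⁻¹ : (FA R (Fin 3))ˣ) := by simp only [mul_assoc]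
    _ = _ := by rw [h3]

lemma eu_comm (k : Fin 3) : (((eu hε k)⁻¹ : (FA R (Fin 3))ˣ) : FA R (Fin 3)) * letter R k =
    letter R k * (((eu hε k)⁻¹ : (FA R (Fin 3))ˣ) : FA R (Fin 3)) := by
  have h : Commute ((eu hε k : (FA R (Fin 3))ˣ) : FA R (Fin 3)) (letter R k) := by
    change _ * _ = _ * _
    rw [eu_val, add_mul, mul_add, one_mul, mul_one, smul_mul_assoc, mul_smul_comm]
  exact (Commute.units_inv_left h).eq

lemma g0 {G : Type*} [Group G] (a b c : G) :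
    ((a * b)⁻¹ * a * (a * b) * c)⁻¹ * (a * b)⁻¹ = (a * b * c)⁻¹ * a⁻¹ := by group

lemma k0 : ph (u12 hε) (ph (u13 hε) (u23 hε 0) * u13 hε 0) * u12 hε 0 =
    (eu hε 0 * eu hε 1 * eu hε 2)⁻¹ * (eu hε 0)⁻¹ := by
  have e1 : u23 hε 0 = 1 := rfl
  have e2 : u13 hε 0 = (eu hε 0 * eu hε 2)⁻¹ := rfl
  have e3 : u12 hε 0 = (eu hε 0 * eu hε 1)⁻¹ := rfl
  rw [e1, e2, e3, map_one, one_mul, map_inv, map_mul, p12_0, p12_2]
  exact g0 _ _ _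

lemma k1 : ph (u12 hε) (ph (u13 hε) (u23 hε 1) * u13 hε 1) * u12 hε 1 =
    (eu hε 0 * eu hε 1 * eu hε 2)⁻¹ * (eu hε 1)⁻¹ := by
  have e1 : u23 hε 1 = (eu hε 1 * eu hε 2)⁻¹ := rfl
  have e2 : u13 hε 1 = (eu hε 2)⁻¹ * (eu hε 0)⁻¹ * eu hε 2 * eu hε 0 := rfl
  have e3 : u12 hε 1 = (eu hε 0 * eu hε 1)⁻¹ := rfl
  have e4 : ph (u13 hε) (u23 hε 1) * u13 hε 1 = (eu hε 2)⁻¹ * (eu hε 1)⁻¹ := by
    rw [e1, map_inv, map_mul, p13_1, p13_2, e2]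
    group
  rw [e4, e3, map_mul, map_inv, map_inv, p12_1, p12_2]
  group

lemma k2 : ph (u12 hε) (ph (u13 hε) (u23 hε 2) * u13 hε 2) * u12 hε 2 =
    (eu hε 0 * eu hε 1 * eu hε 2)⁻¹ * (eu hε 2)⁻¹ := by
  have e1 : u23 hε 2 = (eu hε 1 * eu hε 2)⁻¹ := rfl
  have e2 : u13 hε 2 = (eu hε 0 * eu hε 2)⁻¹ := rfl
  have e3 : u12 hε 2 = 1 := rfl
  have e4 : ph (u13 hε) (u23 hε 2) * u13 hε 2 =
      (eu hε 2)⁻¹ * (eu hε 1)⁻¹ * (eu hε 0)⁻¹ * (eu hε 2)⁻¹ := by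
    rw [e1, map_inv, map_mul, p13_1, p13_2, e2]
    group
  rw [e4, e3, map_mul, map_mul, map_mul, map_inv, map_inv, map_inv, p12_0, p12_1, p12_2, mul_one]
  group

lemma key3 (X : FA R (Fin 3)) : AA' (u12 hε) (AA' (u13 hε) (AA' (u23 hε) X)) =
    AA' (fun _ => (eu hε 0 * eu hε 1 * eu hε 2)⁻¹) X := by
  rw [AA'_comp (u13 hε) (u23 hε), AA'_comp (u12 hε)]
  have h := AA'_congr (fun k => ph (u12 hε) (ph (u13 hε) (u23 hε k) * u13 hε k) * u12 hε k)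
    (fun _ => (eu hε 0 * eu hε 1 * eu hε 2)⁻¹) (fun k => ⟨(eu hε k)⁻¹, by
      fin_cases k
      · exact k0 hε
      · exact k1 hε
      · exact k2 hε, eu_comm hε k⟩)
  rw [h]

/-- conjugation -/
lemma inn (w g : (FA R (Fin 3))ˣ) (X : FA R (Fin 3)) : AA' (fun _ => w⁻¹) X = (w⁻¹ : (FA R (Fin 3))ˣ) * X * w := by
  induction X using FA_induction with
  | h1 => rw [map_one, mul_one, Units.inv_mul]
  | hmul a X ih =>
    rw [map_mul, ih, AA'_letter, inv_inv]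
    calc (w⁻¹ : (FA R (Fin 3))ˣ) * letter R a * (w : FA R (Fin 3)) * ((w⁻¹ : (FA R (Fin 3))ˣ) * X * w)
        = (w⁻¹ : (FA R (Fin 3))ˣ) * letter R a * ((w : FA R (Fin 3)) * (w⁻¹ : (FA R (Fin 3))ˣ)) * X * w := by
          simp only [mul_assoc]
      _ = _ := by rw [Units.mul_inv, mul_one]; simp only [mul_assoc]
  | hadd X Y hX hY => rw [map_add, hX, hY, mul_add, add_mul]
  | hsmul c X hX => rw [map_smul, hX, mul_smul_comm, smul_mul_assoc]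

/-- the product of the three automorphisms -/
lemma comm3 (u v : Fin 3 → (FA R (Fin 3))ˣ) (h1 : ∀ k, ph u (v k) * u k = 1)
    (h2 : ∀ k, ph v (u k) * v k = 1)
    (hw : ph u (eu hε 0 * eu hε 1 * eu hε 2) = eu hε 0 * eu hε 1 * eu hε 2) :
    Commute (a12 hε * a13 hε * a23 hε) (au u v h1 h2) := by
  apply Units.ext
  apply LinearMap.ext
  intro X
  change AA' (u12 hε) (AA' (u13 hε) (AA' (u23 hε) (AA' u X))) =
    AA' u (AA' (u12 hε) (AA' (u13 hε) (AA' (u23 hε) X)))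
  rw [key3, key3, inn _ 1, inn _ 1, map_mul, map_mul]
  have e1 : AA' u ((eu hε 0 * eu hε 1 * eu hε 2 : (FA R (Fin 3))ˣ) : FA R (Fin 3)) =
      ((eu hε 0 * eu hε 1 * eu hε 2 : (FA R (Fin 3))ˣ) : FA R (Fin 3)) := congrArg Units.val hw
  have e2 : AA' u (((eu hε 0 * eu hε 1 * eu hε 2)⁻¹ : (FA R (Fin 3))ˣ) : FA R (Fin 3)) =
      (((eu hε 0 * eu hε 1 * eu hε 2)⁻¹ : (FA R (Fin 3))ˣ) : FA R (Fin 3)) := by
    have := congrArg (fun g => ((g⁻¹ : (FA R (Fin 3))ˣ) : FA R (Fin 3))) hw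
    simp only [← map_inv] at this
    exact this
  rw [e1, e2]

lemma w12 : ph (u12 hε) (eu hε 0 * eu hε 1 * eu hε 2) = eu hε 0 * eu hε 1 * eu hε 2 := by
  rw [map_mul, map_mul, p12_0, p12_1, p12_2]; group

lemma w23 : ph (u23 hε) (eu hε 0 * eu hε 1 * eu hε 2) = eu hε 0 * eu hε 1 * eu hε 2 := by
  rw [map_mul, map_mul, p23_0, p23_1, p23_2]; group

lemma w13 : ph (u13 hε) (eu hε 0 * eu hε 1 * eu hε 2) = eu hε 0 * eu hε 1 * eu hε 2 := by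
  rw [map_mul, map_mul, p13_0, p13_1, p13_2]; group

lemma xx01 : xx hε 0 1 = a12 hε := rfl
lemma xx02 : xx hε 0 2 = a13 hε := rfl
lemma xx12 : xx hε 1 2 = a23 hε := rfl
lemma xx03 : xx hε 0 3 = Lg (eu hε 0) := rfl
lemma xx13 : xx hε 1 3 = Lg (eu hε 1) := rfl
lemma xx23 : xx hε 2 3 = Lg (eu hε 2) := rfl

/-- the relations with the strand `4` -/
lemma tri_aux (u v : Fin 3 → (FA R (Fin 3))ˣ) (h1 : ∀ k, ph u (v k) * u k = 1)
    (h2 : ∀ k, ph v (u k) * v k = 1) (g h : (FA R (Fin 3))ˣ)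
    (hg : ph u g = (g * h)⁻¹ * g * (g * h)) (hh : ph u h = (g * h)⁻¹ * h * (g * h)) :
    Commute (au u v h1 h2 * Lg g * Lg h) (au u v h1 h2) ∧
      Commute (au u v h1 h2 * Lg g * Lg h) (Lg g) ∧
      Commute (au u v h1 h2 * Lg g * Lg h) (Lg h) := by
  have hgh : ph u (g * h) = g * h := by rw [map_mul, hg, hh]; group
  rw [mul_assoc, ← map_mul]
  refine ⟨?_, ?_, ?_⟩
  · exact (Commute.refl _).mul_left (comm_Lg u v h1 h2 _ hgh).symm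
  · apply comm_au_Lg
    rw [map_mul, hgh, hg]
    group
  · apply comm_au_Lg
    rw [map_mul, hgh, hh]
    group

theorem pureBraid_xx : PureBraid (xx hε) where
  tri := by
    intro i j k hij hjk
    have hk : k ≠ 0 := by rintro rfl; exact absurd hjk (by simp)
    have cases : (i = 0 ∧ j = 1 ∧ k = 2) ∨ (i = 0 ∧ j = 1 ∧ k = 3) ∨ (i = 0 ∧ j = 2 ∧ k = 3) ∨
        (i = 1 ∧ j = 2 ∧ k = 3) := by
      revert i j k
      decide
    rcases cases with ⟨rfl, rfl, rfl⟩ | ⟨rfl, rfl, rfl⟩ | ⟨rfl, rfl, rfl⟩ | ⟨rfl, rfl, rfl⟩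
    · rw [xx01, xx02, xx12]
      exact ⟨comm3 hε _ _ _ _ (w12 hε), comm3 hε _ _ _ _ (w13 hε), comm3 hε _ _ _ _ (w23 hε)⟩
    · rw [xx01, xx03, xx13]
      exact tri_aux _ _ _ _ _ _ (p12_0 hε) (p12_1 hε)
    · rw [xx02, xx03, xx23]
      exact tri_aux _ _ _ _ _ _ (p13_0 hε) (p13_2 hε)
    · rw [xx12, xx13, xx23]
      exact tri_aux _ _ _ _ _ _ (p23_1 hε) (p23_2 hε)
  far := by
    rw [xx01, xx23, xx03, xx12]
    exact ⟨comm_Lg _ _ _ _ _ (p12_2 hε), (comm_Lg _ _ _ _ _ (p23_0 hε)).symm⟩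
  cross := by
    rw [xx01, xx02, xx13]
    have h : (a12 hε)⁻¹ * Lg (eu hε 1) * a12 hε = Lg (ph (v12 hε) (eu hε 1)) := inv_mul_Lg _ _ _ _ _
    rw [h]
    apply comm_Lg
    rw [q12_1, map_mul, map_mul, map_mul, map_inv, map_mul, p13_0, p13_1]
    group

end Rep

end MP446G
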